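import Pool.Agent.H75.QF.Targets
import Pool.Agent.H34.QA.HGX

/-!
# QF, module HGF: hypergraphs with `Expd` and near-perfect small-set expansion

The counting is that of helper34 (module HGX) and helper33 (module HGXU).
-/

set_option autoImplicit false

namespace Pool.Agent.H48.QF

open Finset Pool.Agent.H68.AC Pool.Agent.H75.QA Pool.Agent.H34.QA Pool.Agent.H75.QF

open Classical in
/-- maps without the second kind of expansion -/
lemma bad_twoF (c : ℝ) (hc1 : c ≤ 1) (γ h : ℕ) (k r : ℕ)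
    (hk : 1 ≤ k) (hγh : (γ * h : ℝ) ≤ c * k) :
    ((univ.filter fun e : Fin k → Fin (r + 1 + γ) → Fin k => ¬ Expg e γ h).card : ℝ)
      ≤ (k : ℝ) ^ ((r + 1 + γ) * k) * ∑ i ∈ Icc 1 h,
        (γ * Real.exp (1 + γ) * c ^ r) ^ i := by
  have hk0 : (0 : ℝ) < k := by exact_mod_cast hk
  have hsmall : ∀ i ∈ Icc 1 h, (γ * i : ℝ) / k ≤ c ∧ γ * i ≤ k := by
    intro i hi
    have h1 : (i : ℝ) ≤ h := by exact_mod_cast (mem_Icc.1 hi).2
    have h2 : (γ * i : ℝ) ≤ c * k := by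
      calc (γ * i : ℝ) ≤ γ * h := by gcongr
        _ ≤ _ := hγh
    refine ⟨(div_le_iff₀ hk0).2 h2, ?_⟩
    have h3 : ((γ * i : ℕ) : ℝ) ≤ k := by
      push_cast
      nlinarith
    exact_mod_cast h3
  have hcov : (univ.filter fun e : Fin k → Fin (r + 1 + γ) → Fin k => ¬ Expg e γ h)
      ⊆ (Icc 1 h).biUnion (fun i => (powersetCard i univ ×ˢ powersetCard (γ * i) univ).biUnion
        (fun q => Bad (r + 1 + γ) q.2 q.1)) := by
    intro e he
    have he := (mem_filter.1 he).2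
    unfold Expg at he
    push Not at he
    obtain ⟨H, hH, hc⟩ := he
    have hH1 : 1 ≤ H.card := by
      by_contra h0
      have : H.card = 0 := by omega
      rw [this] at hc
      simp at hc
    have hi : H.card ∈ Icc 1 h := mem_Icc.2 ⟨hH1, hH⟩
    obtain ⟨S, hVS, hSc⟩ : ∃ S : Finset (Fin k), VS e H ⊆ S ∧ S.card = γ * H.card := by
      have h1 : γ * H.card ≤ (univ : Finset (Fin k)).card := by
        rw [card_univ, Fintype.card_fin]
        exact (hsmall _ hi).2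
      obtain ⟨S, h2, _, h3⟩ := Finset.exists_subsuperset_card_eq (subset_univ (VS e H)) hc.le h1
      exact ⟨S, h2, h3⟩
    refine mem_biUnion.2 ⟨H.card, hi, mem_biUnion.2 ⟨(H, S), ?_, ?_⟩⟩
    · rw [mem_product, mem_powersetCard, mem_powersetCard]
      exact ⟨⟨subset_univ _, rfl⟩, subset_univ _, hSc⟩
    · simp only [Bad, Fintype.mem_piFinset]
      intro j i
      by_cases hj : j ∈ H
      · rw [if_pos hj]
        apply hVS
        exact mem_biUnion.2 ⟨j, hj, mem_image.2 ⟨some i, mem_univ _, rfl⟩⟩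
      · simp [hj]
  have hterm : ∀ i ∈ Icc 1 h, (((powersetCard i (univ : Finset (Fin k)) ×ˢ
      powersetCard (γ * i) (univ : Finset (Fin k))).biUnion
        (fun q => Bad (r + 1 + γ) q.2 q.1)).card : ℝ) ≤ (k : ℝ) ^ ((r + 1 + γ) * k) *
        (γ * Real.exp (1 + γ) * c ^ r) ^ i := by
    intro i hi
    have hx0 : 0 ≤ (γ * i : ℝ) / k := by positivity
    have hc0 : 0 ≤ c := hx0.trans (hsmall i hi).1
    have h1 := card_biUnion_real (powersetCard i (univ : Finset (Fin k)) ×ˢ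
      powersetCard (γ * i) (univ : Finset (Fin k))) (fun q => Bad (r + 1 + γ) q.2 q.1)
      ((k : ℝ) ^ ((r + 1 + γ) * k) * ((γ * i : ℝ) / k) ^ ((r + 1 + γ) * i)) (by
        intro q hq
        rw [mem_product, mem_powersetCard, mem_powersetCard] at hq
        have h2 := card_Bad (r := r + 1 + γ) q.2 q.1 hx0 (by
          rw [hq.2.2, div_mul_cancel₀ _ hk0.ne']
          push_cast
          exact le_refl _)
        rwa [hq.1.2] at h2)
    refine h1.trans ?_
    rw [card_product, card_powersetCard, card_powersetCard, card_univ, Fintype.card_fin]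
    push_cast
    have c1 := choose_bound k i hk
    have c2 := choose_bound k (γ * i) hk
    push_cast at c2
    have c3 := (hsmall i hi).1
    have e1 : ((γ * i : ℝ) / k) ^ ((r + 1 + γ) * i)
        = (((γ * i : ℝ) / k) ^ i) ^ r * ((γ : ℝ) ^ i * ((i : ℝ) / k) ^ i) *
          ((γ * i : ℝ) / k) ^ (γ * i) := by
      rw [← mul_pow, ← pow_mul, mul_div_assoc, ← pow_add, ← pow_add]
      congr 1
      ring
    have e2 : (((γ * i : ℝ) / k) ^ i) ^ r ≤ (c ^ r) ^ i := by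
      rw [← pow_mul, ← pow_mul, mul_comm i r]
      exact pow_le_pow_left₀ hx0 c3 _
    calc ((k.choose i : ℝ) * (k.choose (γ * i) : ℝ)) *
          ((k : ℝ) ^ ((r + 1 + γ) * k) * ((γ * i : ℝ) / k) ^ ((r + 1 + γ) * i))
        = (k : ℝ) ^ ((r + 1 + γ) * k) * ((((γ * i : ℝ) / k) ^ i) ^ r * (γ : ℝ) ^ i *
          ((k.choose i : ℝ) * ((i : ℝ) / k) ^ i) *
          ((k.choose (γ * i) : ℝ) * ((γ * i : ℝ) / k) ^ (γ * i))) := by rw [e1]; ring
      _ ≤ (k : ℝ) ^ ((r + 1 + γ) * k) * ((c ^ r) ^ i * (γ : ℝ) ^ i *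
          Real.exp i * Real.exp (γ * i)) := by gcongr
      _ = (k : ℝ) ^ ((r + 1 + γ) * k) * (γ * Real.exp (1 + γ) * c ^ r) ^ i := by
          rw [mul_pow, mul_pow, ← Real.exp_nat_mul]
          have : Real.exp ((i : ℝ) * (1 + γ)) = Real.exp i * Real.exp (γ * i) := by
            rw [← Real.exp_add]
            congr 1
            ring
          rw [this]
          ring
  calc ((univ.filter fun e : Fin k → Fin (r + 1 + γ) → Fin k => ¬ Expg e γ h).card : ℝ)
      ≤ (((Icc 1 h).biUnion (fun i => (powersetCard i (univ : Finset (Fin k)) ×ˢ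
        powersetCard (γ * i) (univ : Finset (Fin k))).biUnion
        (fun q => Bad (r + 1 + γ) q.2 q.1))).card : ℝ) := by exact_mod_cast card_le_card hcov
    _ ≤ ∑ i ∈ Icc 1 h, (((powersetCard i (univ : Finset (Fin k)) ×ˢ
      powersetCard (γ * i) (univ : Finset (Fin k))).biUnion
        (fun q => Bad (r + 1 + γ) q.2 q.1)).card : ℝ) := by exact_mod_cast card_biUnion_le
    _ ≤ ∑ i ∈ Icc 1 h, (k : ℝ) ^ ((r + 1 + γ) * k) *
        (γ * Real.exp (1 + γ) * c ^ r) ^ i := sum_le_sum hterm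
    _ = _ := by rw [mul_sum]

lemma small_gammaF (γ r L : ℕ) (hr : 1 ≤ r) (hL : 1 + γ ≤ L * r) :
    (γ : ℝ) * Real.exp (1 + γ) * (1 / (4 * 6 ^ L)) ^ r ≤ 1 / 4 := by
  have h1 : (γ : ℝ) ≤ 2 ^ (1 + γ) := by
    have : γ < 2 ^ (1 + γ) := lt_of_lt_of_le (Nat.lt_two_pow_self (n := γ))
      (Nat.pow_le_pow_right (by norm_num) (by omega))
    exact_mod_cast this.le
  have h2 : Real.exp (1 + γ) ≤ 3 ^ (1 + γ) := by
    have e1 : Real.exp (1 + γ) = (Real.exp 1) ^ (1 + γ) := by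
      rw [← Real.exp_nat_mul]
      congr 1
      push_cast
      ring
    rw [e1]
    apply pow_le_pow_left₀ (Real.exp_pos _).le
    have := Real.exp_one_lt_d9
    linarith
  calc (γ : ℝ) * Real.exp (1 + γ) * (1 / (4 * 6 ^ L)) ^ r
      ≤ 2 ^ (1 + γ) * 3 ^ (1 + γ) * (1 / (4 * 6 ^ L)) ^ r := by gcongr
    _ = 6 ^ (1 + γ) * (1 / (4 * 6 ^ L)) ^ r := by
        rw [← mul_pow]
        norm_num
    _ ≤ 6 ^ (L * r) * (1 / (4 * 6 ^ L)) ^ r := by
        gcongr
        norm_num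
    _ = (1 / 4) ^ r := by
        rw [pow_mul, ← mul_pow]
        congr 1
        field_simp
    _ ≤ (1 / 4) ^ 1 := pow_le_pow_of_le_one (by norm_num) (by norm_num) hr
    _ = 1 / 4 := by norm_num

theorem HGF : T_HGF := by
  classical
  intro β L hβ0 hβ1
  obtain ⟨M, hM⟩ := exists_pow_lt_of_lt_one (show (0:ℝ) < 1 / 16 by norm_num) hβ1
  refine ⟨(M : ℝ) + 1, 1 / (4 * 6 ^ L), by positivity, by positivity, ?_⟩
  intro δ γ r k h₁ hδ hr0 hr1 hL hγh hk
  have hM' : (M : ℝ) ≤ δ * (r + 1 + γ) := by linarith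
  have hγ0 : (0 : ℝ) ≤ γ := Nat.cast_nonneg γ
  have hk0 : (0 : ℝ) < k := by exact_mod_cast hk
  have hc1 : (1 / (4 * 6 ^ L) : ℝ) ≤ 1 := by
    rw [div_le_one (by positivity)]
    have : (1 : ℝ) ≤ 6 ^ L := one_le_pow₀ (by norm_num)
    linarith
  by_contra hcon
  push Not at hcon
  have hcov : (univ : Finset (Fin k → Fin (r + 1 + γ) → Fin k)) ⊆
      (univ.filter fun e => ¬ Expd e ⌊β * k⌋₊ ⌊δ * k⌋₊) ∪
      (univ.filter fun e => ¬ Expg e γ h₁) := by
    intro e _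
    rw [mem_union, mem_filter, mem_filter]
    by_cases h : Expd e ⌊β * k⌋₊ ⌊δ * k⌋₊
    · right
      exact ⟨mem_univ _, hcon e h⟩
    · left
      exact ⟨mem_univ _, h⟩
  have htot : ((k : ℝ) ^ ((r + 1 + γ) * k)) ≤
      ((univ.filter fun e : Fin k → Fin (r + 1 + γ) → Fin k =>
        ¬ Expd e ⌊β * k⌋₊ ⌊δ * k⌋₊).card : ℝ) +
      ((univ.filter fun e : Fin k → Fin (r + 1 + γ) → Fin k =>
        ¬ Expg e γ h₁).card : ℝ) := by
    have h1 := (card_le_card hcov).trans (card_union_le _ _)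
    rw [card_univ, Fintype.card_fun, Fintype.card_fun, Fintype.card_fin, Fintype.card_fin,
      ← pow_mul] at h1
    exact_mod_cast h1
  have hP : (0 : ℝ) < (k : ℝ) ^ ((r + 1 + γ) * k) := by positivity
  have b1 := bad_one β δ hβ0 hβ1 k (r + 1 + γ)
  have b1' : (4 * (β ^ δ) ^ (r + 1 + γ)) ^ k ≤ 1 / 4 := by
    have h1 : (β ^ δ) ^ (r + 1 + γ) ≤ 1 / 16 := by
      calc (β ^ δ) ^ (r + 1 + γ) = β ^ (δ * ((r + 1 + γ : ℕ) : ℝ)) := by
            rw [← Real.rpow_natCast, ← Real.rpow_mul hβ0.le]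
        _ ≤ β ^ (M : ℝ) := by
            apply Real.rpow_le_rpow_of_exponent_ge hβ0 hβ1.le
            push_cast
            linarith
        _ = β ^ M := Real.rpow_natCast _ _
        _ ≤ 1 / 16 := hM.le
    have hx0 : 0 < β ^ δ := Real.rpow_pos_of_pos hβ0 δ
    have h2 : 4 * (β ^ δ) ^ (r + 1 + γ) ≤ 1 / 4 := by linarith
    calc (4 * (β ^ δ) ^ (r + 1 + γ)) ^ k ≤ (1 / 4) ^ k := pow_le_pow_left₀ (by positivity) h2 k
      _ ≤ (1 / 4) ^ 1 := pow_le_pow_of_le_one (by norm_num) (by norm_num) hk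
      _ = 1 / 4 := pow_one _
  have b2 : ((univ.filter fun e : Fin k → Fin (r + 1 + γ) → Fin k =>
        ¬ Expg e γ h₁).card : ℝ) ≤ (k : ℝ) ^ ((r + 1 + γ) * k) * (1 / 3) := by
    refine (bad_twoF _ hc1 γ h₁ k r hk hγh).trans ?_
    apply mul_le_mul_of_nonneg_left _ hP.le
    exact geom_third _ (by positivity) (small_gammaF γ r L hr1 hL) _
  have b3 : (k : ℝ) ^ ((r + 1 + γ) * k) * (4 * (β ^ δ) ^ (r + 1 + γ)) ^ k
      ≤ (k : ℝ) ^ ((r + 1 + γ) * k) * (1 / 4) := mul_le_mul_of_nonneg_left b1' hP.le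
  linarith

end Pool.Agent.H48.QF
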