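import Pool.Agent.H79.QF.Targets

/-!
# Resampling one entry
-/

set_option autoImplicit false

namespace Pool.Agent.H48.QF

open Pool.Agent.H79.QF

theorem res_sum {R : ℕ} {Ω : Type} [Fintype Ω] (t : Fin R) (h : (Fin R → Ω) → ℝ) :
    ∑ y : Fin R → Ω, ∑ w : Ω, h (Function.update y t w) = Fintype.card Ω * ∑ y, h y := by
  classical
  have e1 : ∑ y : Fin R → Ω, ∑ w : Ω, h (Function.update y t w)
      = ∑ p : (Fin R → Ω) × Ω, h (Function.update p.1 t p.2) := by
    rw [Fintype.sum_prod_type]
  let e : ((Fin R → Ω) × Ω) ≃ ((Fin R → Ω) × Ω) :=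
    { toFun := fun p => (Function.update p.1 t p.2, p.1 t)
      invFun := fun p => (Function.update p.1 t p.2, p.1 t)
      left_inv := fun p => by
        ext i
        · simp
        · simp
      right_inv := fun p => by
        ext i
        · simp
        · simp }
  have e2 : ∑ p : (Fin R → Ω) × Ω, h (Function.update p.1 t p.2)
      = ∑ p : (Fin R → Ω) × Ω, h p.1 := by
    have := Equiv.sum_comp e (fun p : (Fin R → Ω) × Ω => h p.1)
    simpa [e] using this
  rw [e1, e2, Fintype.sum_prod_type]
  simp only [Finset.sum_const, Finset.card_univ, nsmul_eq_mul]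
  rw [Finset.mul_sum]

theorem pf_RES : T_RES := by
  classical
  intro R Ω _ t A F g hg hgt hA hcard
  rcases isEmpty_or_nonempty Ω with hE | hN
  · have : IsEmpty (Fin R → Ω) := ⟨fun y => hE.elim (y t)⟩
    simp
  have hc : (0 : ℝ) < Fintype.card Ω := by exact_mod_cast Fintype.card_pos
  have h1 := res_sum t (fun y => if F y then g y else 0)
  have h2 : ∀ y : Fin R → Ω, (Fintype.card Ω : ℝ) * (if A y then g y else 0)
      ≤ 2 * ∑ w : Ω, (if F (Function.update y t w) then g (Function.update y t w) else 0) := by
    intro y
    have h3 : ∑ w : Ω, (if F (Function.update y t w) then g (Function.update y t w) else 0)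
        = (Nat.card {ω : Ω // F (Function.update y t ω)} : ℝ) * g y := by
      have : ∀ w : Ω, (if F (Function.update y t w) then g (Function.update y t w) else 0)
          = (if F (Function.update y t w) then (1 : ℝ) else 0) * g y := by
        intro w
        rw [hgt]
        split_ifs <;> simp
      rw [Finset.sum_congr rfl (fun w _ => this w), ← Finset.sum_mul, Finset.sum_boole,
        Nat.card_eq_fintype_card, Fintype.card_subtype]
    rw [h3]
    by_cases hy : A y
    · rw [if_pos hy]
      have h4 : (Fintype.card Ω : ℝ) ≤ 2 * (Nat.card {ω : Ω // F (Function.update y t ω)} : ℝ) := by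
        exact_mod_cast hcard y hy
      have := mul_le_mul_of_nonneg_right h4 (hg y)
      linarith only [this]
    · rw [if_neg hy, mul_zero]
      have := hg y
      positivity
  have h5 : (Fintype.card Ω : ℝ) * ∑ y, (if A y then g y else 0)
      ≤ Fintype.card Ω * (2 * ∑ y, (if F y then g y else 0)) := by
    calc (Fintype.card Ω : ℝ) * ∑ y, (if A y then g y else 0)
        = ∑ y, (Fintype.card Ω : ℝ) * (if A y then g y else 0) := by rw [Finset.mul_sum]
      _ ≤ ∑ y : Fin R → Ω,
          2 * ∑ w : Ω, (if F (Function.update y t w) then g (Function.update y t w) else 0) :=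
          Finset.sum_le_sum fun y _ => h2 y
      _ = 2 * ∑ y : Fin R → Ω,
          ∑ w : Ω, (if F (Function.update y t w) then g (Function.update y t w) else 0) := by
          rw [Finset.mul_sum]
      _ = _ := by
          rw [h1]
          ring
  exact le_of_mul_le_mul_left h5 hc

end Pool.Agent.H48.QF
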